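import Pool.Agent.Helper94.SY.St
import Pool.Agent.Helper1.PFS.Fin

set_option autoImplicit false

/-!
# Project SY, module MX (mixing for sums of lines, arbitrary functions)
-/

namespace Pool.Agent.Helper42.SY

open Pool.Agent.Helper94.SY Finset
open scoped Classical
open Pool.Agent.Helper1.PFS (G rmul lineSum StA)
open Pool.Agent.Helper70.EC (nsq PF TT StT2)

theorem nsq_sub (p : ℕ) [Fact p.Prime] (f : G p → ℝ) (n : ℝ) (hn : 0 < n)
    (hcard : (Fintype.card (G p) : ℝ) = n) :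
    nsq (fun g => f g - (∑ g, f g) / n) = nsq f - (∑ g, f g) ^ 2 / n := by
  unfold nsq
  set S := ∑ g, f g with hS
  have e1 : ∑ g, (f g - S / n) ^ 2 = ∑ g, f g ^ 2 - 2 * (S / n) * ∑ g, f g + ∑ _g : G p, (S / n) ^ 2 := by
    rw [Finset.mul_sum, ← Finset.sum_sub_distrib, ← Finset.sum_add_distrib]
    apply Finset.sum_congr rfl
    intro g _
    ring
  rw [e1, Finset.sum_const, Finset.card_univ, nsmul_eq_mul, hcard, ← hS]
  field_simp
  ring

theorem sum_sub_avg (p : ℕ) [Fact p.Prime] (f : G p → ℝ) (n : ℝ) (hn : 0 < n)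
    (hcard : (Fintype.card (G p) : ℝ) = n) :
    ∑ g, (f g - (∑ g, f g) / n) = 0 := by
  rw [Finset.sum_sub_distrib, Finset.sum_const, Finset.card_univ, nsmul_eq_mul, hcard]
  field_simp
  ring

theorem TT_sub (p : ℕ) [Fact p.Prime] (f h R : G p → ℝ) (n : ℝ) (hn : 0 < n)
    (hcard : (Fintype.card (G p) : ℝ) = n) :
    TT (fun g => f g - (∑ g, f g) / n) (fun g => h g - (∑ g, h g) / n) R
      = TT f h R - (∑ g, f g) * (∑ g, h g) * (∑ g, R g) / n := by
  unfold TT
  set S := ∑ g, f g with hS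
  set S' := ∑ g, h g with hS'
  set S'' := ∑ g, R g with hS''
  have r1 : ∀ a : G p, ∑ b, R (a * b) = S'' := by
    intro a
    exact Equiv.sum_comp (Equiv.mulLeft a) R
  have r2 : ∀ b : G p, ∑ a, R (a * b) = S'' := by
    intro b
    exact Equiv.sum_comp (Equiv.mulRight b) R
  have e1 : ∑ a, ∑ b, (f a - S / n) * (h b - S' / n) * R (a * b)
      = ∑ a, ∑ b, f a * h b * R (a * b) - (S' / n) * ∑ a, f a * ∑ b, R (a * b)
        - (S / n) * ∑ b, h b * ∑ a, R (a * b) + (S / n) * (S' / n) * ∑ a, ∑ b, R (a * b) := by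
    have c1 : ∑ b, h b * ∑ a, R (a * b) = ∑ a, ∑ b, h b * R (a * b) := by
      rw [Finset.sum_comm]
      apply Finset.sum_congr rfl
      intro b _
      rw [Finset.mul_sum]
    rw [c1]
    simp only [Finset.mul_sum]
    rw [← Finset.sum_sub_distrib, ← Finset.sum_sub_distrib, ← Finset.sum_add_distrib]
    apply Finset.sum_congr rfl
    intro a _
    rw [← Finset.sum_sub_distrib, ← Finset.sum_sub_distrib, ← Finset.sum_add_distrib]
    apply Finset.sum_congr rfl
    intro b _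
    ring
  rw [e1]
  simp only [r1, r2]
  rw [← Finset.sum_mul, ← Finset.sum_mul, Finset.sum_const, Finset.card_univ, nsmul_eq_mul, hcard,
    ← hS, ← hS']
  field_simp
  ring

theorem card_real (p : ℕ) [Fact p.Prime] :
    (Fintype.card (G p) : ℝ) = (p : ℝ) * ((p : ℝ) ^ 2 - 1) ∧ 0 < (p : ℝ) * ((p : ℝ) ^ 2 - 1) := by
  have hp : 2 ≤ p := (Fact.out : p.Prime).two_le
  have hp' : (2 : ℝ) ≤ p := by exact_mod_cast hp
  constructor
  · rw [Pool.Agent.Helper1.PFS.card_G]
    have : 1 ≤ p ^ 2 := Nat.one_le_pow _ _ (by omega)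
    push_cast [Nat.cast_sub this]
    ring
  · have : (0 : ℝ) < (p : ℝ) ^ 2 - 1 := by nlinarith
    positivity

theorem hMX : StM1 → StMX := by
  intro hM1 p _ F K hK hmu f h
  obtain ⟨hcard, hn⟩ := card_real p
  have hp : 2 ≤ p := (Fact.out : p.Prime).two_le
  have hp' : (2 : ℝ) ≤ p := by exact_mod_cast hp
  set n : ℝ := (p : ℝ) * ((p : ℝ) ^ 2 - 1) with hndef
  have h1 := hM1 p F K hK hmu (fun g => f g - (∑ g, f g) / n) (fun g => h g - (∑ g, h g) / n)
    (sum_sub_avg p f n hn hcard) (sum_sub_avg p h n hn hcard)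
  rw [TT_sub p f h (RR F) n hn hcard, nsq_sub p f n hn hcard, nsq_sub p h n hn hcard] at h1
  refine h1.trans ?_
  have a0 : 0 ≤ 4 * (p : ℝ) ^ 2 * (K * (p - 1) * F.card) := by
    have : (0 : ℝ) ≤ (p : ℝ) - 1 := by linarith
    positivity
  have a1 : nsq f - (∑ g, f g) ^ 2 / n ≤ nsq f := by
    have : 0 ≤ (∑ g, f g) ^ 2 / n := by positivity
    linarith
  have a2 : nsq h - (∑ g, h g) ^ 2 / n ≤ nsq h := by
    have : 0 ≤ (∑ g, h g) ^ 2 / n := by positivity
    linarith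
  have a3 : 0 ≤ nsq h - (∑ g, h g) ^ 2 / n := by
    rw [← nsq_sub p h n hn hcard]
    exact Finset.sum_nonneg fun _ _ => sq_nonneg _
  have a4 : 0 ≤ nsq f := Finset.sum_nonneg fun _ _ => sq_nonneg _
  exact mul_le_mul (mul_le_mul_of_nonneg_left a1 a0) a2 a3 (mul_nonneg a0 a4)

end Pool.Agent.Helper42.SY
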