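import Pool.Agent.Helper42.SY.M_MX

set_option autoImplicit false

/-!
# Project SY, module NR (the l2 norm of a sum of lines)
-/

namespace Pool.Agent.Helper42.SY

open Pool.Agent.Helper94.SY Finset
open scoped Classical
open Pool.Agent.Helper1.PFS (G rmul lineSum StA)
open Pool.Agent.Helper70.EC (nsq PF TT StT2)

theorem pairing (p : ℕ) [Fact p.Prime] (F : Finset (W p × W p)) (f : G p → ℝ) :
    ∑ g, f g * RR F g = ∑ e ∈ F, lineSum f e.1 e.2 := by
  unfold RR lineSum
  have e1 : ∀ g : G p, f g * ∑ r : W p, (if (r, rmul r g) ∈ F then (1 : ℝ) else 0)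
      = ∑ e ∈ F, if rmul e.1 g = e.2 then f g else 0 := by
    intro g
    rw [Finset.mul_sum]
    have : ∀ r : W p, f g * (if (r, rmul r g) ∈ F then (1 : ℝ) else 0)
        = ∑ v : W p, if (r, v) ∈ F then (if rmul r g = v then f g else 0) else 0 := by
      intro r
      rw [Finset.sum_eq_single (rmul r g)]
      · by_cases h : (r, rmul r g) ∈ F
        · rw [if_pos h, if_pos h, if_pos rfl, mul_one]
        · rw [if_neg h, if_neg h, mul_zero]
      · intro v _ hv
        have hne : ¬ rmul r g = v := fun h => hv h.symm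
        by_cases h : (r, v) ∈ F
        · rw [if_pos h, if_neg hne]
        · rw [if_neg h]
      · intro h
        exact absurd (Finset.mem_univ _) h
    simp only [this]
    rw [← Finset.sum_product' (s := Finset.univ) (t := Finset.univ)
      (f := fun r v => if (r, v) ∈ F then (if rmul r g = v then f g else 0) else 0)]
    rw [Finset.univ_product_univ, ← Finset.sum_filter]
    apply Finset.sum_congr
    · ext e
      simp
    · intro e _
      rfl
  simp only [e1]
  rw [Finset.sum_comm]

theorem hNR : StNR := by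
  intro p _ F
  obtain ⟨hcard, hn⟩ := card_real p
  have hp : 2 ≤ p := (Fact.out : p.Prime).two_le
  have hp' : (2 : ℝ) ≤ p := by exact_mod_cast hp
  set n : ℝ := (p : ℝ) * ((p : ℝ) ^ 2 - 1) with hndef
  set R0 : G p → ℝ := fun g => RR F g - (∑ g, RR F g) / n with hR0
  have h1 : nsq R0 = nsq (RR F) - (∑ g, RR F g) ^ 2 / n := nsq_sub p (RR F) n hn hcard
  have h2 : ∑ g, R0 g = 0 := sum_sub_avg p (RR F) n hn hcard
  have h3 : nsq R0 = ∑ e ∈ F, lineSum R0 e.1 e.2 := by
    rw [← pairing]
    unfold nsq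
    have : ∑ g, R0 g ^ 2 = ∑ g, R0 g * RR F g - (∑ g, RR F g) / n * ∑ g, R0 g := by
      rw [Finset.mul_sum, ← Finset.sum_sub_distrib]
      apply Finset.sum_congr rfl
      intro g _
      simp only [hR0]
      ring
    rw [this, h2, mul_zero, sub_zero]
  have h4 : nsq R0 ^ 2 ≤ F.card * (2 * p * (p - 1) * nsq R0) := by
    calc nsq R0 ^ 2 = (∑ e ∈ F, lineSum R0 e.1 e.2) ^ 2 := by rw [← h3]
      _ ≤ F.card * ∑ e ∈ F, lineSum R0 e.1 e.2 ^ 2 := sq_sum_le_card_mul_sum_sq
      _ ≤ F.card * (2 * p * (p - 1) * nsq R0) := by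
        apply mul_le_mul_of_nonneg_left _ (Nat.cast_nonneg _)
        have hA := Pool.Agent.Helper1.PFS.pA p R0 h2
        refine le_trans ?_ hA
        rw [← Finset.sum_product' (s := Finset.univ) (t := Finset.univ)
          (f := fun r v => lineSum R0 r v ^ 2), Finset.univ_product_univ]
        exact Finset.sum_le_univ_sum_of_nonneg (fun e => sq_nonneg _)
  have h5 : 0 ≤ nsq R0 := Finset.sum_nonneg fun _ _ => sq_nonneg _
  have h6 : nsq R0 ≤ 2 * p * (p - 1) * F.card := by
    rcases h5.eq_or_lt with h | h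
    · rw [← h]
      have : (0 : ℝ) ≤ (p : ℝ) - 1 := by linarith
      positivity
    · have : nsq R0 * nsq R0 ≤ (2 * p * (p - 1) * F.card) * nsq R0 := by nlinarith
      exact le_of_mul_le_mul_right this h
  linarith

end Pool.Agent.Helper42.SY
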